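import Pool.Agent.H.MP_65fbb9_lc.B

set_option autoImplicit false

/-! Cone avoidance for limits in the density metric. -/

namespace Pool.Agent.H.MP_4c1ea5_lc

open Filter Pool.Agent.Lib.helper21 Encodable Pool.Agent.Lib.helper21.PR Finset
open Pool.Agent.H.MP_65fbb9_lc Pool.Agent.H.MP_738f0f_lc Pool.Agent.Lib.helper21.ML
open Pool.Agent.H.MP_fa2eca_lc

attribute [local irreducible] Primrec Computable
attribute [local fun_prop] ci_tb

theorem ds_congr {m : ℕ} {Z Z' : ℕ → Bool} (Y : ℕ → Bool) (h : ∀ i < m, Z i = Z' i) :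
    ds m Z Y = ds m Z' Y :=
  congrArg card (filter_congr fun i hi => by rw [h i (mem_range.1 hi)])

theorem ds_comm (m : ℕ) (Z Y : ℕ → Bool) : ds m Z Y = ds m Y Z :=
  congrArg card (filter_congr fun _ _ => ne_comm)

theorem ds_le {m n : ℕ} {Z Y : ℕ → Bool} (h : ∀ i, n ≤ i → Z i = Y i) : ds m Z Y ≤ ds n Z Y :=
  card_le_card fun i hi => mem_filter.2 ⟨mem_range.2 (not_le.1 fun c => (mem_filter.1 hi).2 (h i c)),
    (mem_filter.1 hi).2⟩

structure Cn (B : ℕ → Bool) where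
  D : ℕ → Bool
  n : ℕ
  k : ℕ
  h : ∀ m, n ≤ m → k * ds m D B ≤ m
  b : ∃ c, ∀ m, ds m D B ≤ c

variable {A B X : ℕ → Bool}

instance : Preorder (Cn B) where
  le d e := e.n ≤ d.n ∧ e.k ≤ d.k ∧ (∀ i < e.n, d.D i = e.D i) ∧ ∀ m, e.n ≤ m → e.k * ds m d.D B ≤ m
  le_refl d := ⟨le_rfl, le_rfl, fun _ _ => rfl, d.h⟩
  le_trans _ d _ a b := ⟨b.1.trans a.1, b.2.1.trans a.2.1, fun i hi =>
    (a.2.2.1 i (hi.trans_le b.1)).trans (b.2.2.1 i hi), fun m hm => (le_total m d.n).elim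
      (fun c => ds_congr B (fun i hi => (a.2.2.1 i (hi.trans_le c)).symm) ▸ b.2.2.2 m hm)
      fun c => (Nat.mul_le_mul_right _ b.2.1).trans (a.2.2.2 m c)⟩

theorem Cn.grow (d : Cn B) (N K : ℕ) (hK : d.k ≤ K) : ∃ e ≤ d, N ≤ e.n ∧ e.k = K :=
  let ⟨c, hc⟩ := d.b
  ⟨⟨d.D, d.n + N + K * c, K, fun m hm => (Nat.mul_le_mul_left _ (hc m)).trans (by omega), d.b⟩,
    ⟨by dsimp only; omega, hK, fun _ _ => rfl, d.h⟩, by dsimp only; omega, rfl⟩

theorem step (h : ∀ k, ∃ A : ℕ → Bool, ¬ CI A X ∧ ∀ᶠ m in atTop, k * ds m A B ≤ m) (e : ℕ) (d : Cn B) :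
    ∃ d' ≤ d, ∃ x, (∃ s ≤ d'.n, Uu (e.pair (encode (x, !X x)), pre d'.D s)) ∨
      ∀ d'' ≤ d', ∀ s ≤ d''.n, ¬ Uu (e.pair (encode (x, X x)), pre d''.D s) := by
  obtain ⟨A, h1, h2⟩ := h (4 * d.k)
  obtain ⟨N, hN⟩ := eventually_atTop.1 h2
  obtain ⟨f, a1, a2, a3⟩ := d.grow N (4 * d.k) (by omega)
  let R : ℕ → Bool → Prop := fun x b => ∃ w L s, s ≤ L ∧ f.n ≤ L ∧
    (∀ i < f.n, Fn.tb w i = Fn.tb (Fn.cd f.D f.n) i) ∧
      (∀ m < L + 1, f.n ≤ m → 2 * d.k * ds m (Fn.tb w) A ≤ m) ∧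
        Uu (e.pair (encode (x, b)), pre (Fn.tb w) s)
  by_cases c : ∃ x, R x !X x
  · obtain ⟨x, w, L, s, b1, b2, b3, b4, b5⟩ := c
    let D := fun i => if i < L then Fn.tb w i else B i
    have b6 : ∀ m, ds m D B ≤ ds L D B := fun m => ds_le fun i hi => if_neg hi.not_gt
    have b7 : ∀ i < f.n, D i = f.D i := fun i hi =>
      (if_pos (hi.trans_le b2)).trans ((b3 i hi).trans (Fn.tb_cd _ _ _ hi))
    have b8 : ∀ m, f.n ≤ m → m ≤ L → d.k * ds m D B ≤ m := fun m k k' => by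
      have := ds_tri m A D B
      rw [ds_congr (Z' := Fn.tb w) A fun i hi => if_pos (hi.trans_le k'), ds_comm m B] at this
      nlinarith [b4 m (by omega) k, hN m (by omega)]
    have b9 : ∀ m, L ≤ m → d.k * ds m D B ≤ m := fun m k =>
      (Nat.mul_le_mul_left _ (b6 m)).trans ((b8 L b2 le_rfl).trans k)
    exact ⟨⟨D, L, d.k, b9, _, b6⟩, ⟨a1.1.trans b2, le_rfl, fun i hi => (b7 i (hi.trans_le a1.1)).trans
      (a1.2.2.1 i hi), fun m hm => (le_total m f.n).elim (fun k => ds_congr B (fun i hi =>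
        (b7 i (hi.trans_le k)).symm) ▸ a1.2.2.2 m hm) fun k => (le_total m L).elim (b8 m k) (b9 m)⟩,
      x, .inl ⟨s, b1, pre_congr (X := Fn.tb w) (Y := D) (fun i hi => (if_pos (hi.trans_le b1)).symm) ▸ b5⟩⟩
  · obtain ⟨x, hx⟩ : ∃ x, ¬ R x (X x) := by
      by_contra! k
      have hU := (i_re (Y := A) (r_pw Uu_re)).un
      have := ci_self A
      refine h1 (CI.mk (R := R) (by unfold R ds; generalize Uu = U at hU; fun_prop) fun x b =>
        ⟨fun r => by_contra fun n => c ⟨x, Bool.eq_not_iff.2 (Ne.symm n) ▸ r⟩, fun r => r ▸ k x⟩)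
    refine ⟨f, a1, x, .inr fun g b1 s b2 b3 => hx ⟨Fn.cd g.D g.n, g.n, s, b2, b1.1, fun i hi =>
      (Fn.tb_cd _ _ _ (hi.trans_le b1.1)).trans ((b1.2.2.1 i hi).trans (Fn.tb_cd _ _ _ hi).symm),
      fun m k k' => ?_, pre_congr (fun i hi => (Fn.tb_cd _ _ _ (hi.trans_le b2)).symm) ▸ b3⟩⟩
    have := ds_tri m B g.D A
    have b4 := b1.2.2.2 m k'
    rw [ds_congr (Z' := g.D) A fun i hi => Fn.tb_cd _ _ _ (by omega)]
    rw [a3] at b4
    nlinarith [hN m (by omega)]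

theorem avoid (h : ∀ k, ∃ A : ℕ → Bool, ¬ CI A X ∧ ∀ᶠ m in atTop, k * ds m A B ≤ m) :
    ∃ G, ¬ CI G X ∧ ∀ k, ∀ᶠ m in atTop, k * ds m G B ≤ m := by
  obtain ⟨z, h1, h2⟩ := gen (ι := ℕ × Bool) (fun u (d : Cn B) => cond u.2 (u.1 ≤ d.n ∧ u.1 ≤ d.k)
    (∃ x, (∃ s ≤ d.n, Uu (u.1.pair (encode (x, !X x)), pre d.D s)) ∨
      ∀ d' ≤ d, ∀ s ≤ d'.n, ¬ Uu (u.1.pair (encode (x, X x)), pre d'.D s)))
    ⟨B, 0, 0, by simp, 0, by simp [ds]⟩
  have h3 : ∀ N n, ∃ m, n ≤ m ∧ N ≤ (z m).n ∧ N ≤ (z m).k := fun N n => by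
    obtain ⟨m, k | k⟩ := h2 (N, true)
    · have := h1 (Nat.le_add_left m n)
      exact ⟨n + m, by omega, le_trans k.1 this.1, le_trans k.2 this.2.1⟩
    · obtain ⟨e, a, b, c⟩ := (z m).grow N ((z m).k + N) (by omega)
      exact absurd ⟨b, by omega⟩ (k e a)
  choose M _ h4 _ using fun i => h3 (i + 1) 0
  have h5 : ∀ n, ∀ i < (z n).n, (z (M i)).D i = (z n).D i := fun n i hi =>
    ((h1 (le_max_left _ n)).2.2.1 i (h4 i)).symm.trans ((h1 (le_max_right _ n)).2.2.1 i hi)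
  refine ⟨fun i => (z (M i)).D i, fun k => ?_, fun k => ?_⟩
  · obtain ⟨e, he⟩ := k.ri.idx
    obtain ⟨n, ⟨x, ⟨s, a, b⟩ | a⟩ | a⟩ := h2 (e, false)
    · simpa using (he (x, !X x)).1 (J_iff.2 ⟨s, pre_congr (fun i hi =>
        (h5 n i (hi.trans_le a)).symm) ▸ b⟩)
    · obtain ⟨s, b⟩ := J_iff.1 ((he (x, X x)).2 rfl)
      obtain ⟨m, c, d, -⟩ := h3 s n
      exact a _ (h1 c) s d (pre_congr (fun i hi => h5 m i (hi.trans_le d)) ▸ b)
    · obtain ⟨d, b, c⟩ := step h e (z n)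
      exact a d b c
  · obtain ⟨n, -, -, a⟩ := h3 k 0
    filter_upwards [eventually_ge_atTop (z n).n] with m hm
    obtain ⟨n', b, c, -⟩ := h3 m n
    rw [ds_congr B fun i hi => h5 n' i (hi.trans_le c)]
    exact (Nat.mul_le_mul_right _ a).trans ((h1 b).2.2.2 m hm)

theorem vote (h : ∀ᶠ m in atTop, 8 * ds m A (fun k => X (Nat.log 2 k)) ≤ m) : CI A X := by
  obtain ⟨N, hN⟩ := eventually_atTop.1 h
  have := ci_self A
  refine (show CI A fun n => if n < N then Fn.tb (Fn.cd X N) n else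
    decide (2 ^ n < 2 * ((range (2 ^ n)).filter fun i => A (2 ^ n + i) = true).card) from
      ci_ite (by fun_prop) (ci_tb (ci_const _) ci_id) (by fun_prop)).of_eq fun n => ?_
  split_ifs with c
  · exact Fn.tb_cd _ _ _ c
  have h1 := hN (2 ^ (n + 1)) (le_trans (by omega) Nat.lt_two_pow_self.le)
  have h2 : ((range (2 ^ n)).filter fun i => A (2 ^ n + i) ≠ X n).card ≤
      ds (2 ^ (n + 1)) A fun k => X (Nat.log 2 k) :=
    card_le_card_of_injOn (2 ^ n + ·) (fun i hi => by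
      obtain ⟨a, b⟩ := mem_filter.1 (mem_coe.1 hi)
      simp only [mem_coe, mem_filter, mem_range, lg_add (mem_range.1 a)] at a ⊢
      exact ⟨by omega, b⟩) fun _ _ _ _ => Nat.add_left_cancel
  have h3 := card_filter_add_card_filter_not (s := range (2 ^ n)) fun i => A (2 ^ n + i) = true
  have h4 := Nat.one_le_two_pow (n := n)
  rw [card_range] at h3
  cases e : X n <;> simp only [e, ne_eq, Bool.not_eq_false] at h2 <;> simp <;> omega

end Pool.Agent.H.MP_4c1ea5_lc
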